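import Mathlib
import Pool.Agent.Q259.AsymSpec

set_option autoImplicit false

open Finset Pool.Agent.Q259.AsymSpec

namespace Pool.Agent.Results.MP_83ab87_co.NotDense

/-- A graph of the class `𝒢_∞`: at most continuum many vertices, finite clique covering number. -/
structure Gr where
  /-- the vertices -/
  V : Type
  /-- the graph -/
  G : SimpleGraph V
  /-- at most `|ℝ|` vertices -/
  card_le : Cardinal.mk V ≤ Cardinal.mk ℝ
  /-- finite clique covering number -/
  cover : FinCov G

/-- disjoint union in `𝒢_∞` -/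
def Gr.sum (A B : Gr) : Gr where
  V := A.V ⊕ B.V
  G := dsum A.G B.G
  card_le := by
    rw [Cardinal.mk_sum, Cardinal.lift_id, Cardinal.lift_id]
    exact Cardinal.add_le_of_le (Cardinal.infinite_iff.mp inferInstance) A.card_le B.card_le
  cover := A.cover.sum B.cover

/-- strong product in `𝒢_∞` -/
def Gr.prod (A B : Gr) : Gr where
  V := A.V × B.V
  G := strong A.G B.G
  card_le := by
    rw [Cardinal.mk_prod, Cardinal.lift_id, Cardinal.lift_id]
    exact Cardinal.mul_le_of_le (Cardinal.infinite_iff.mp inferInstance) A.card_le B.card_le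
  cover := A.cover.prod B.cover

/-- the edgeless graph on `n` vertices -/
def Gr.E (n : ℕ) : Gr where
  V := Fin n
  G := ⊥
  card_le := (Cardinal.mk_le_aleph0).trans (Cardinal.infinite_iff.mp inferInstance)
  cover := finCov_bot n

/-- The points of the asymptotic spectrum `𝒳_∞`: nonnegative maps on `𝒢_∞` which are additive for
disjoint unions, multiplicative for strong products, normalised by `F(E_n) = n`, and monotone under
cohomomorphisms. -/
def IsSpectralPoint (F : Gr → ℝ) : Prop :=
  (∀ A, 0 ≤ F A) ∧ (∀ A B, F (A.sum B) = F A + F B) ∧ (∀ A B, F (A.prod B) = F A * F B) ∧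
    (∀ n, F (Gr.E n) = n) ∧ ∀ A B, CoLE A.G B.G → F A ≤ F B

/-- The asymptotic spectrum distance. -/
noncomputable def specDist (A B : Gr) : ℝ :=
  sSup {x | ∃ F : Gr → ℝ, IsSpectralPoint F ∧ x = |F A - F B|}

theorem up_point : IsSpectralPoint (fun A => Fup A.G) :=
  ⟨fun A => Fup_nonneg A.G, fun A B => Fup_sum A.cover B.cover,
    fun A B => Fup_prod A.cover B.cover, fun n => Fup_bot n, fun _ B h => Fup_mono h B.cover⟩

theorem low_point : IsSpectralPoint (fun A => Flow A.G) :=
  ⟨fun A => Flow_nonneg A.cover, fun A B => Flow_sum A.cover B.cover,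
    fun A B => Flow_prod A.cover B.cover, fun n => Flow_bot n, fun _ B h => Flow_mono h B.cover⟩

theorem specDist_bdd (A B : Gr) :
    BddAbove {x | ∃ F : Gr → ℝ, IsSpectralPoint F ∧ x = |F A - F B|} := by
  obtain ⟨n, hn⟩ := A.cover
  obtain ⟨m, hm⟩ := B.cover
  refine ⟨(n : ℝ) + m, ?_⟩
  rintro x ⟨F, ⟨h0, -, -, hE, hmono⟩, rfl⟩
  have h1 : F A ≤ n := by rw [← hE n]; exact hmono A (Gr.E n) hn
  have h2 : F B ≤ m := by rw [← hE m]; exact hmono B (Gr.E m) hm
  have h3 := h0 A
  have h4 := h0 B
  rw [abs_le]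
  constructor <;> linarith

theorem le_specDist {A B : Gr} {F : Gr → ℝ} (hF : IsSpectralPoint F) :
    |F A - F B| ≤ specDist A B := le_csSup (specDist_bdd A B) ⟨F, hF, rfl⟩

/-! ### the example -/

/-- vertices: pairs `i < j` of natural numbers with a colour in `Fin 5` -/
abbrev W : Type := {p : ℕ × ℕ // p.1 < p.2} × Fin 5

/-- the product of the infinite shift graph with `K_5` -/
def shiftProd : SimpleGraph W where
  Adj x y := (x.1.1.2 = y.1.1.1 ∨ y.1.1.2 = x.1.1.1) ∧ x.2 ≠ y.2
  symm := ⟨fun _ _ h => ⟨h.1.symm, h.2.symm⟩⟩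
  loopless := ⟨fun _ h => h.2 rfl⟩

theorem cover5 : FinCov shiftProdᶜ := by
  refine ⟨5, Prod.snd, fun u v huv hn => ?_⟩
  rw [SimpleGraph.compl_adj, not_and, not_not] at hn
  exact ⟨(hn huv).2, by simp⟩

/-- the example graph -/
def ex : Gr where
  V := W
  G := shiftProdᶜ
  card_le := (Cardinal.mk_le_aleph0).trans (Cardinal.infinite_iff.mp inferInstance)
  cover := cover5

/-- every finite colouring of the pairs has a monochromatic shift edge -/
theorem mono_edge {Φ : Type} [Finite Φ] (φ : {p : ℕ × ℕ // p.1 < p.2} → Φ) :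
    ∃ (i j k : ℕ) (hij : i < j) (hjk : j < k), φ ⟨(i, j), hij⟩ = φ ⟨(j, k), hjk⟩ := by
  by_contra hcon
  push Not at hcon
  set D : ℕ → Set Φ := fun i => {x | ∃ (j : ℕ) (h : i < j), φ ⟨(i, j), h⟩ = x} with hD
  have hne : ∀ i j, i < j → D i ≠ D j := by
    intro i j hij h
    have h1 : φ ⟨(i, j), hij⟩ ∈ D i := ⟨j, hij, rfl⟩
    rw [h] at h1
    obtain ⟨k, hjk, hk⟩ := h1
    exact hcon i j k hij hjk hk.symm
  have hinj : Function.Injective D := by
    intro i j h
    rcases lt_trichotomy i j with h1 | h1 | h1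
    · exact absurd h (hne i j h1)
    · exact h1
    · exact absurd h.symm (hne j i h1)
  exact not_injective_infinite_finite D hinj

theorem up_ge : 5 ≤ Fup ex.G := by
  refine le_csInf (vals_nonempty cover5) ?_
  rintro x ⟨a, b, hb, ⟨c, C, h1, h2, h3, h4⟩, rfl⟩
  classical
  rw [le_div_iff₀ (by exact_mod_cast hb)]
  -- colour the pairs by the five colour sets
  set φ : {p : ℕ × ℕ // p.1 < p.2} → (Fin 5 → {s : Finset ℕ // s ∈ C.powerset}) :=
    fun p k => ⟨c (p, k), Finset.mem_powerset.mpr (h2 _)⟩ with hφ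
  obtain ⟨i, j, k, hij, hjk, h⟩ := mono_edge φ
  have hdisj : ∀ s t : Fin 5, s ≠ t →
      Disjoint (c (⟨(i, j), hij⟩, s)) (c (⟨(i, j), hij⟩, t)) := by
    intro s t hst
    have e : c (⟨(j, k), hjk⟩, t) = c (⟨(i, j), hij⟩, t) := by
      have := congrArg Subtype.val (congrFun h t)
      exact this.symm
    rw [← e]
    refine h4 _ _ (fun e' => hst (congrArg Prod.snd e')) ?_
    rw [show ex.G = shiftProdᶜ from rfl, SimpleGraph.compl_adj, not_and, not_not]
    intro _
    exact ⟨Or.inl rfl, hst⟩
  have h5 : ∑ s : Fin 5, (c (⟨(i, j), hij⟩, s)).card ≤ C.card := by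
    rw [← Finset.card_biUnion]
    · exact Finset.card_le_card (Finset.biUnion_subset.mpr fun v _ => h2 _)
    · intro u _ v _ huv
      exact hdisj u v huv
  have h6 : 5 * b ≤ ∑ s : Fin 5, (c (⟨(i, j), hij⟩, s)).card := by
    calc 5 * b = ∑ _s : Fin 5, b := by simp
      _ ≤ _ := Finset.sum_le_sum fun v _ => h3 _
  exact_mod_cast h6.trans (h5.trans h1)

theorem low_le : Flow ex.G ≤ 4 := by
  refine Flow_le_of fun s hs => ?_
  classical
  -- an upper bound for the entries
  obtain ⟨n, hn⟩ : ∃ n : ℕ, ∀ x ∈ s, (x : W).1.1.2 < n := by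
    obtain ⟨n, hn⟩ := (hs.image fun x : W => x.1.1.2).bddAbove
    exact ⟨n + 1, fun x hx => Nat.lt_succ_of_le (hn (Set.mem_image_of_mem _ hx))⟩
  set N := n + 2 with hN
  have hcov : cov (ex.G.induce s) (2 ^ N) (2 ^ n) := by
    refine cov_of_encodable (κ := Finset ℕ) _ _ _
      (fun x => (range N).powerset.filter fun A => x.1.1.1.1 ∈ A ∧ x.1.1.1.2 ∉ A)
      ((range N).powerset) ?_ ?_ ?_ ?_
    · rw [Finset.card_powerset, Finset.card_range]
    · intro x; exact Finset.filter_subset _ _
    · rintro ⟨⟨⟨⟨i, j⟩, hij⟩, k⟩, hx⟩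
      have hj : j < n := hn _ hx
      simp only at hij ⊢
      have h1 : (((range N).erase i).erase j).powerset.card = 2 ^ n := by
        rw [Finset.card_powerset, Finset.card_erase_of_mem, Finset.card_erase_of_mem,
          Finset.card_range]
        · rw [hN]; rfl
        · rw [Finset.mem_range]; omega
        · rw [Finset.mem_erase, Finset.mem_range]
          exact ⟨by omega, by omega⟩
      rw [← h1]
      refine Finset.card_le_card_of_injOn (fun A => insert i A) ?_ ?_
      · intro A hA
        rw [Finset.mem_coe, Finset.mem_powerset] at hA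
        rw [Finset.mem_coe, Finset.mem_filter, Finset.mem_powerset]
        refine ⟨?_, Finset.mem_insert_self _ _, ?_⟩
        · intro y hy
          rw [Finset.mem_insert] at hy
          rcases hy with rfl | hy
          · rw [Finset.mem_range]; omega
          · exact Finset.mem_of_mem_erase (Finset.mem_of_mem_erase (hA hy))
        · rw [Finset.mem_insert, not_or]
          refine ⟨by omega, fun h => ?_⟩
          exact absurd rfl (Finset.ne_of_mem_erase (hA h))
      · intro A hA B hB hAB
        rw [Finset.mem_coe, Finset.mem_powerset] at hA hB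
        have hiA : i ∉ A := fun h =>
          absurd rfl (Finset.ne_of_mem_erase (Finset.mem_of_mem_erase (hA h)))
        have hiB : i ∉ B := fun h =>
          absurd rfl (Finset.ne_of_mem_erase (Finset.mem_of_mem_erase (hB h)))
        have := congrArg (fun X => X.erase i) hAB
        simpa [Finset.erase_insert hiA, Finset.erase_insert hiB] using this
    · rintro ⟨⟨⟨⟨i, j⟩, hij⟩, k⟩, hx⟩ ⟨⟨⟨⟨i', j'⟩, hij'⟩, k'⟩, hx'⟩ huv hnadj
      have hadj : (j = i' ∨ j' = i) ∧ k ≠ k' := by
        by_contra hcon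
        apply hnadj
        have hc : (shiftProdᶜ).Adj ((⟨(i, j), hij⟩, k) : W) (⟨(i', j'), hij'⟩, k') :=
          (SimpleGraph.compl_adj _ _ _).mpr ⟨fun h => huv (Subtype.ext h), hcon⟩
        exact hc
      rw [Finset.disjoint_left]
      intro A hA hA'
      rw [Finset.mem_filter] at hA hA'
      obtain ⟨-, h1, h2⟩ := hA
      obtain ⟨-, h3, h4⟩ := hA'
      simp only at h1 h2 h3 h4
      rcases hadj.1 with h | h
      · rw [h] at h2; exact h2 h3
      · rw [h] at h4; exact h4 h1
  have h := Fup_le (Nat.one_le_two_pow) hcov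
  refine h.trans (le_of_eq ?_)
  rw [hN]
  push_cast
  rw [pow_add]
  field_simp
  norm_num

/-- The finite graphs are not dense in `𝒢_∞`. -/
theorem result : ∃ (A : Gr) (ε : ℝ), 0 < ε ∧ ∀ B : Gr, Finite B.V → ε ≤ specDist A B := by
  refine ⟨ex, 1 / 2, by norm_num, fun B hB => ?_⟩
  have h1 := le_specDist (A := ex) (B := B) up_point
  have h2 := le_specDist (A := ex) (B := B) low_point
  have h3 : Flow B.G = Fup B.G := Flow_eq_of_finite B.cover
  rw [h3] at h2
  have h4 := up_ge
  have h5 := low_le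
  have h6 := le_abs_self (Fup ex.G - Fup B.G)
  have h7 := neg_abs_le (Flow ex.G - Fup B.G)
  linarith

end Pool.Agent.Results.MP_83ab87_co.NotDense
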